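import Pool.Agent.helper82.SW.SpecW

/-! # sp:WSING : mutual singularity from almost separating events -/

namespace Pool.Agent.helper82.SW

open MeasureTheory Filter Topology TopologicalSpace

theorem SING : SING_stmt := by
  intro X _ μ ν _ _ h
  choose A hA hμ hν using fun k : ℕ => h ((1 / 2) ^ k) (by positivity)
  have h1 : ∀ k, μ (A k)ᶜ ≤ ENNReal.ofReal ((1 / 2) ^ k) := by
    intro k
    rw [← ofReal_measureReal (μ := μ) (s := (A k)ᶜ)]
    apply ENNReal.ofReal_le_ofReal
    rw [measureReal_compl (hA k), probReal_univ]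
    linarith [hμ k]
  have h2 : ∀ k, ν (A k) ≤ ENNReal.ofReal ((1 / 2) ^ k) := by
    intro k
    rw [← ofReal_measureReal (μ := ν) (s := A k)]
    exact ENNReal.ofReal_le_ofReal (hν k)
  have hsum : ∑' k, ν (A k) ≠ ⊤ := by
    refine ne_top_of_le_ne_top ?_ (ENNReal.tsum_le_tsum h2)
    rw [← ENNReal.ofReal_tsum_of_nonneg (fun k => by positivity) summable_geometric_two]
    exact ENNReal.ofReal_ne_top
  refine ⟨(limsup A atTop)ᶜ, (MeasurableSet.measurableSet_limsup hA).compl, ?_, ?_⟩
  · have hsub : (limsup A atTop)ᶜ = ⋃ n, ⋂ k, ⋂ (_ : n ≤ k), (A k)ᶜ := by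
      rw [limsup_eq_iInf_iSup_of_nat]
      ext x
      simp only [Set.iInf_eq_iInter, Set.iSup_eq_iUnion, Set.mem_compl_iff, Set.mem_iInter,
        Set.mem_iUnion, not_forall, not_exists, exists_prop, ge_iff_le, not_and]
    rw [hsub, measure_iUnion_null_iff]
    intro n
    refine le_antisymm ?_ bot_le
    have hlim : Tendsto (fun k : ℕ => ENNReal.ofReal ((1 / 2) ^ k)) atTop (𝓝 0) := by
      rw [← ENNReal.ofReal_zero]
      exact ENNReal.tendsto_ofReal (tendsto_pow_atTop_nhds_zero_of_lt_one (by norm_num) (by norm_num))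
    refine ge_of_tendsto hlim ?_
    filter_upwards [eventually_ge_atTop n] with k hk
    refine le_trans (measure_mono ?_) (h1 k)
    exact Set.iInter₂_subset k hk
  · rw [compl_compl]
    exact measure_limsup_atTop_eq_zero hsum

end Pool.Agent.helper82.SW
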